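import Mathlib

set_option autoImplicit false

open Finset

namespace Pool.Agent.Helper34.BadPartition

/-- The free group of countable rank. -/
abbrev G : Type := FreeGroup ℕ

/-- Permutation of `G × Bool`: left translation by the `j`-th generator, which flips the second
coordinate exactly at the single edge ending in `v` (and only if `j = k`). -/
def cutPerm (k : ℕ) (v : G) (j : ℕ) : Equiv.Perm (G × Bool) where
  toFun p := (FreeGroup.of j * p.1, if j = k ∧ FreeGroup.of j * p.1 = v then !p.2 else p.2)
  invFun p := ((FreeGroup.of j)⁻¹ * p.1, if j = k ∧ p.1 = v then !p.2 else p.2)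
  left_inv := by
    rintro ⟨w, b⟩
    by_cases h : j = k ∧ FreeGroup.of j * w = v
    · show ((FreeGroup.of j)⁻¹ * (FreeGroup.of j * w),
        if j = k ∧ FreeGroup.of j * w = v then
          !(if j = k ∧ FreeGroup.of j * w = v then !b else b) else
          (if j = k ∧ FreeGroup.of j * w = v then !b else b)) = (w, b)
      rw [if_pos h, if_pos h]
      simp
    · show ((FreeGroup.of j)⁻¹ * (FreeGroup.of j * w),
        if j = k ∧ FreeGroup.of j * w = v then
          !(if j = k ∧ FreeGroup.of j * w = v then !b else b) else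
          (if j = k ∧ FreeGroup.of j * w = v then !b else b)) = (w, b)
      rw [if_neg h, if_neg h]
      simp
  right_inv := by
    rintro ⟨w, b⟩
    by_cases h : j = k ∧ w = v
    · simp [h]
    · simp [h]

/-- The action of the free group defined by `cutPerm`. -/
def cutHom (k : ℕ) (v : G) : G →* Equiv.Perm (G × Bool) := FreeGroup.lift (cutPerm k v)

/-- The cut function. -/
def chi (k : ℕ) (v : G) (w : G) : Bool := (cutHom k v w (1, false)).2

lemma cutHom_fst (k : ℕ) (v : G) (w : G) : ∀ p : G × Bool, (cutHom k v w p).1 = w * p.1 := by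
  induction w using FreeGroup.induction_on with
  | C1 => intro p; simp
  | of j => intro p; simp [cutHom, cutPerm]
  | inv_of j _ =>
    intro p
    rw [map_inv]
    have : cutHom k v (FreeGroup.of j) = cutPerm k v j := by simp [cutHom]
    show ((cutHom k v (FreeGroup.of j))⁻¹ p).1 = _
    rw [this]
    rfl
  | mul x y hx hy =>
    intro p
    rw [map_mul, Equiv.Perm.mul_apply, hx, hy, mul_assoc]

lemma chi_of_mul (k : ℕ) (v : G) (j : ℕ) (w : G) :
    chi k v (FreeGroup.of j * w) =
      if j = k ∧ FreeGroup.of j * w = v then !(chi k v w) else chi k v w := by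
  have h1 : (cutHom k v w (1, false)).1 = w := by rw [cutHom_fst]; simp
  have h2 : cutHom k v (FreeGroup.of j) = cutPerm k v j := by simp [cutHom]
  unfold chi
  rw [map_mul, Equiv.Perm.mul_apply, h2]
  show (if j = k ∧ FreeGroup.of j * (cutHom k v w (1, false)).1 = v
    then !(cutHom k v w (1, false)).2 else (cutHom k v w (1, false)).2) = _
  rw [h1]

/-- The subgroup generated by the generators of index `< k`. -/
def lower (k : ℕ) : Subgroup G := Subgroup.closure (FreeGroup.of '' {j | j < k})

lemma chi_lower (k : ℕ) (v : G) {u : G} (hu : u ∈ lower k) :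
    ∀ w, chi k v (u * w) = chi k v w := by
  induction hu using Subgroup.closure_induction with
  | mem x hx =>
    obtain ⟨j, hj, rfl⟩ := hx
    intro w
    rw [chi_of_mul, if_neg]
    rintro ⟨h, _⟩
    exact absurd h (ne_of_lt hj)
  | one => intro w; simp
  | mul x y _ _ hx hy => intro w; rw [mul_assoc, hx, hy]
  | inv x _ hx =>
    intro w
    have := hx (x⁻¹ * w)
    rw [mul_inv_cancel_left] at this
    exact this.symm

lemma lower_mono {k l : ℕ} (h : k ≤ l) : lower k ≤ lower l :=
  Subgroup.closure_mono (Set.image_mono fun _ hj => lt_of_lt_of_le hj h)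

lemma exists_lower (w : G) : ∃ k, w ∈ lower k := by
  induction w using FreeGroup.induction_on with
  | C1 => exact ⟨0, one_mem _⟩
  | of j => exact ⟨j + 1, Subgroup.subset_closure ⟨j, Nat.lt_succ_self j, rfl⟩⟩
  | inv_of j h => obtain ⟨k, hk⟩ := h; exact ⟨k, inv_mem hk⟩
  | mul x y hx hy =>
    obtain ⟨k, hk⟩ := hx
    obtain ⟨l, hl⟩ := hy
    exact ⟨max k l, mul_mem (lower_mono (le_max_left _ _) hk) (lower_mono (le_max_right _ _) hl)⟩

lemma exists_lower_finset (F : Finset G) : ∃ k, ∀ f ∈ F, f ∈ lower k := by
  classical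
  induction F using Finset.induction_on with
  | empty => exact ⟨0, by simp⟩
  | insert a s ha ih =>
    obtain ⟨k, hk⟩ := ih
    obtain ⟨l, hl⟩ := exists_lower a
    refine ⟨max k l, ?_⟩
    intro f hf
    rcases Finset.mem_insert.1 hf with rfl | hf
    · exact lower_mono (le_max_right _ _) hl
    · exact lower_mono (le_max_left _ _) (hk f hf)

/-- Existence of an injective choice of generators. -/
lemma exists_kappa (c : ℕ) : ∃ κ : Fin c × Finset G → ℕ, Function.Injective κ ∧
    ∀ p, ∀ f ∈ p.2, f ∈ lower (κ p) := by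
  have : Countable G := by
    unfold G FreeGroup
    infer_instance
  obtain ⟨ι, hι⟩ := exists_injective_nat (Fin c × Finset G)
  choose B hB using exists_lower_finset
  refine ⟨fun p => Nat.pair (ι p) (B p.2), ?_, ?_⟩
  · intro p q h
    exact hι (Nat.pair_eq_pair.1 h).1
  · intro p f hf
    exact lower_mono (Nat.right_le_pair _ _) (hB p.2 f hf)

/-- A colouring satisfies the instance `e = (X, F, v)`. -/
def Sat {c : ℕ} (κ : Fin c × Finset G → ℕ) (col : G → Fin c) (e : (Fin c × Finset G) × G) : Prop :=
  (∀ f ∈ e.1.2, col (f⁻¹ * e.2) ≠ e.1.1) ∨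
  (∀ f ∈ e.1.2, col (f⁻¹ * ((FreeGroup.of (κ e.1))⁻¹ * e.2)) ≠ e.1.1)

/-- Light requirements. -/
def Light {c : ℕ} (E : Fin c → Finset G) : Prop :=
  ∑ i, Real.sqrt ((E i).card : ℝ) < c

lemma Light.mono {c : ℕ} {E E' : Fin c → Finset G} (h : Light E) (hs : ∀ i, E' i ⊆ E i) :
    Light E' := by
  refine lt_of_le_of_lt (Finset.sum_le_sum fun i _ => ?_) h
  exact Real.sqrt_le_sqrt (by exact_mod_cast Finset.card_le_card (hs i))

lemma sqrt_add_le' (x y : ℝ) (hx : 0 ≤ x) (hy : 0 ≤ y) :
    Real.sqrt (x + y) ≤ Real.sqrt x + Real.sqrt y := by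
  rw [Real.sqrt_le_left (by positivity)]
  have h1 := Real.sq_sqrt hx
  have h2 := Real.sq_sqrt hy
  have h3 := mul_nonneg (Real.sqrt_nonneg x) (Real.sqrt_nonneg y)
  nlinarith

/-- The key numerical fact. -/
lemma light_split {c m : ℕ} (hm : Real.sqrt m ≤ c * (1 - Real.sqrt 2 / 2))
    (s t : Fin c → ℕ) (X : Fin c)
    (hs : (c : ℝ) ≤ ∑ i, Real.sqrt ((s i + if i = X then m else 0 : ℕ) : ℝ))
    (ht : (c : ℝ) ≤ ∑ i, Real.sqrt ((t i + if i = X then m else 0 : ℕ) : ℝ)) :
    (c : ℝ) ≤ ∑ i, Real.sqrt ((s i + t i : ℕ) : ℝ) := by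
  have key : ∀ s : Fin c → ℕ,
      ∑ i, Real.sqrt ((s i + if i = X then m else 0 : ℕ) : ℝ) ≤
      (∑ i, Real.sqrt (s i : ℝ)) + Real.sqrt m := by
    intro s
    have h1 : ∑ i, Real.sqrt ((s i + if i = X then m else 0 : ℕ) : ℝ) ≤
        ∑ i, (Real.sqrt (s i : ℝ) + if i = X then Real.sqrt (m : ℝ) else 0) := by
      refine Finset.sum_le_sum fun i _ => ?_
      by_cases h : i = X
      · simp only [h, if_true]
        push_cast
        exact sqrt_add_le' _ _ (by positivity) (by positivity)
      · simp [h]
    rw [Finset.sum_add_distrib] at h1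
    simpa using h1
  have h1 := hs.trans (key s)
  have h2 := ht.trans (key t)
  have h3 : ∀ i, (Real.sqrt (s i : ℝ) + Real.sqrt (t i : ℝ)) * (Real.sqrt 2 / 2) ≤
      Real.sqrt ((s i + t i : ℕ) : ℝ) := by
    intro i
    apply Real.le_sqrt_of_sq_le
    have hs2 : Real.sqrt 2 ^ 2 = 2 := Real.sq_sqrt (by norm_num)
    have ha : Real.sqrt (s i : ℝ) ^ 2 = s i := Real.sq_sqrt (by positivity)
    have hb : Real.sqrt (t i : ℝ) ^ 2 = t i := Real.sq_sqrt (by positivity)
    push_cast
    have : ((Real.sqrt (s i : ℝ) + Real.sqrt (t i : ℝ)) * (Real.sqrt 2 / 2)) ^ 2 =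
        (Real.sqrt (s i : ℝ) + Real.sqrt (t i : ℝ)) ^ 2 * (Real.sqrt 2 ^ 2) / 4 := by ring
    rw [this, hs2]
    nlinarith [sq_nonneg (Real.sqrt (s i : ℝ) - Real.sqrt (t i : ℝ))]
  have h4 : (∑ i, Real.sqrt (s i : ℝ) + ∑ i, Real.sqrt (t i : ℝ)) * (Real.sqrt 2 / 2) ≤
      ∑ i, Real.sqrt ((s i + t i : ℕ) : ℝ) := by
    rw [← Finset.sum_add_distrib, Finset.sum_mul]
    exact Finset.sum_le_sum fun i _ => h3 i
  refine le_trans ?_ h4
  have hs2 : Real.sqrt 2 ^ 2 = 2 := Real.sq_sqrt (by norm_num)
  have hpos : 0 ≤ Real.sqrt 2 := Real.sqrt_nonneg 2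
  have h5 : (c : ℝ) * (Real.sqrt 2 / 2) ≤ ∑ i, Real.sqrt (s i : ℝ) := by
    nlinarith
  have h6 : (c : ℝ) * (Real.sqrt 2 / 2) ≤ ∑ i, Real.sqrt (t i : ℝ) := by
    nlinarith
  calc (c : ℝ) = (c * (Real.sqrt 2 / 2) + c * (Real.sqrt 2 / 2)) * (Real.sqrt 2 / 2) := by
        have : (c * (Real.sqrt 2 / 2) + c * (Real.sqrt 2 / 2)) * (Real.sqrt 2 / 2) =
          c * (Real.sqrt 2 ^ 2) / 2 := by ring
        rw [this, hs2]; ring
    _ ≤ _ := by
        apply mul_le_mul_of_nonneg_right (add_le_add h5 h6) (by positivity)

/-- Main combinatorial lemma: any finite set of instances is satisfiable together with any light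
requirement. -/
lemma finite_sat {c m : ℕ} (hm : Real.sqrt m ≤ c * (1 - Real.sqrt 2 / 2))
    (κ : Fin c × Finset G → ℕ) (hκ : Function.Injective κ)
    (hκ' : ∀ p, ∀ f ∈ p.2, f ∈ lower (κ p)) (I : Finset ((Fin c × Finset G) × G)) :
    (∀ e ∈ I, e.1.2.card ≤ m) → ∀ E : Fin c → Finset G, Light E →
      ∃ col : G → Fin c, (∀ i, ∀ v ∈ E i, col v ≠ i) ∧ ∀ e ∈ I, Sat κ col e := by
  classical
  induction I using Finset.induction_on_max_value
    (fun e : (Fin c × Finset G) × G => κ e.1) with
  | empty =>
    intro _ E hE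
    have : ∀ v : G, ∃ i : Fin c, v ∉ E i := by
      intro v
      by_contra hcon
      push Not at hcon
      apply absurd hE
      unfold Light
      push Not
      calc (c : ℝ) = ∑ _i : Fin c, (1 : ℝ) := by simp
        _ ≤ _ := by
          refine Finset.sum_le_sum fun i _ => ?_
          rw [Real.one_le_sqrt]
          have : 0 < (E i).card := Finset.card_pos.2 ⟨v, hcon i⟩
          exact_mod_cast this
    choose col hcol using this
    refine ⟨col, ?_, by simp⟩
    intro i v hv h
    exact hcol v (h ▸ hv)
  | insert e I heI hmax ih =>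
    intro hcard E hE
    have ihI := ih (fun e' he' => hcard e' (Finset.mem_insert_of_mem he'))
    obtain ⟨⟨X, F⟩, v⟩ := e
    have hF : F.card ≤ m := hcard ((X, F), v) (Finset.mem_insert_self _ _)
    set k := κ (X, F) with hk
    set g : G := FreeGroup.of k with hg
    let ch : G → Bool := chi k v
    have hch_lower : ∀ u ∈ lower k, ∀ w, ch (u * w) = ch w := fun u hu w => chi_lower k v hu w
    have hFl : ∀ f ∈ F, f ∈ lower k := hκ' (X, F)
    have hcut : ch v = !(ch (g⁻¹ * v)) := by
      have := chi_of_mul k v k (g⁻¹ * v)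
      simpa [ch, hg] using this
    -- the two sides
    let P : Finset G := F.image (fun f => f⁻¹ * v)
    let Q : Finset G := F.image (fun f => f⁻¹ * (g⁻¹ * v))
    have hP : ∀ w ∈ P, ch w = ch v := by
      intro w hw
      obtain ⟨f, hf, rfl⟩ := Finset.mem_image.1 hw
      exact hch_lower _ (inv_mem (hFl f hf)) _
    have hQ : ∀ w ∈ Q, ch w = ch (g⁻¹ * v) := by
      intro w hw
      obtain ⟨f, hf, rfl⟩ := Finset.mem_image.1 hw
      exact hch_lower _ (inv_mem (hFl f hf)) _
    let E1 : Fin c → Finset G := fun i => (E i).filter (fun w => ch w = ch v)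
    let E2 : Fin c → Finset G := fun i => (E i).filter (fun w => ¬ ch w = ch v)
    let E1' : Fin c → Finset G := fun i => E1 i ∪ if i = X then P else ∅
    let E2' : Fin c → Finset G := fun i => E2 i ∪ if i = X then Q else ∅
    have hE1 : Light E1 := hE.mono fun i => Finset.filter_subset _ _
    have hE2 : Light E2 := hE.mono fun i => Finset.filter_subset _ _
    have hsplit : Light E1' ∨ Light E2' := by
      by_contra hcon
      push Not at hcon
      obtain ⟨h1, h2⟩ := hcon
      unfold Light at h1 h2
      push Not at h1 h2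
      have c1 : ∀ i, (E1' i).card ≤ (E1 i).card + if i = X then m else 0 := by
        intro i
        refine (Finset.card_union_le _ _).trans ?_
        by_cases h : i = X
        · simp only [h, if_true]
          exact Nat.add_le_add_left (Finset.card_image_le.trans hF) _
        · simp [h]
      have c2 : ∀ i, (E2' i).card ≤ (E2 i).card + if i = X then m else 0 := by
        intro i
        refine (Finset.card_union_le _ _).trans ?_
        by_cases h : i = X
        · simp only [h, if_true]
          exact Nat.add_le_add_left (Finset.card_image_le.trans hF) _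
        · simp [h]
      have := light_split hm (fun i => (E1 i).card) (fun i => (E2 i).card) X
        (h1.trans (Finset.sum_le_sum fun i _ => Real.sqrt_le_sqrt (by exact_mod_cast c1 i)))
        (h2.trans (Finset.sum_le_sum fun i _ => Real.sqrt_le_sqrt (by exact_mod_cast c2 i)))
      refine absurd hE ?_
      unfold Light
      push Not
      refine this.trans (le_of_eq (Finset.sum_congr rfl fun i _ => ?_))
      congr 2
      exact Finset.card_filter_add_card_filter_not (s := E i) (fun w => ch w = ch v)
    -- gluing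
    have glue : ∀ c1 c2 : G → Fin c,
        (∀ i, ∀ w ∈ E1 i, c1 w ≠ i) → (∀ i, ∀ w ∈ E2 i, c2 w ≠ i) →
        (∀ e ∈ I, Sat κ c1 e) → (∀ e ∈ I, Sat κ c2 e) →
        ((∀ w ∈ P, c1 w ≠ X) ∨ (∀ w ∈ Q, c2 w ≠ X)) →
        ∃ col : G → Fin c, (∀ i, ∀ v ∈ E i, col v ≠ i) ∧
          ∀ e ∈ insert ((X, F), v) I, Sat κ col e := by
      intro c1 c2 h1 h2 hs1 hs2 hPQ
      let col : G → Fin c := fun w => if ch w = ch v then c1 w else c2 w
      have col1 : ∀ w, ch w = ch v → col w = c1 w := fun w hw => if_pos hw
      have col2 : ∀ w, ¬ ch w = ch v → col w = c2 w := fun w hw => if_neg hw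
      refine ⟨col, ?_, ?_⟩
      · intro i w hw
        by_cases h : ch w = ch v
        · rw [col1 w h]
          exact h1 i w (Finset.mem_filter.2 ⟨hw, h⟩)
        · rw [col2 w h]
          exact h2 i w (Finset.mem_filter.2 ⟨hw, h⟩)
      · intro e hein
        rcases Finset.mem_insert.1 hein with rfl | he
        · -- the new instance
          rcases hPQ with hPQ | hPQ
          · left
            intro f hf
            have hw : f⁻¹ * v ∈ P := Finset.mem_image_of_mem _ hf
            rw [col1 _ (hP _ hw)]
            exact hPQ _ hw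
          · right
            intro f hf
            have hw : f⁻¹ * (g⁻¹ * v) ∈ Q := Finset.mem_image_of_mem (fun f => f⁻¹ * (g⁻¹ * v)) hf
            have hne : ¬ ch (f⁻¹ * (g⁻¹ * v)) = ch v := by
              rw [hQ _ hw, hcut]
              cases ch (g⁻¹ * v) <;> simp
            show col (f⁻¹ * (g⁻¹ * v)) ≠ X
            rw [col2 _ hne]
            exact hPQ _ hw
        · -- old instances: `ch` is constant on the support
          obtain ⟨⟨X', F'⟩, v'⟩ := e
          have hle : κ (X', F') ≤ k := hmax _ he
          have hFl' : ∀ f ∈ F', f ∈ lower k := fun f hf =>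
            lower_mono hle (hκ' (X', F') f hf)
          set g' : G := FreeGroup.of (κ (X', F')) with hg'
          have hconst : ch (g'⁻¹ * v') = ch v' := by
            rcases lt_or_eq_of_le hle with hlt | heq
            · have : g' ∈ lower k := Subgroup.subset_closure ⟨_, hlt, rfl⟩
              exact hch_lower _ (inv_mem this) _
            · have hpair : (X', F') = (X, F) := hκ heq
              have hvne : v' ≠ v := by
                intro hvv
                apply heI
                rw [← hpair, ← hvv]
                exact he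
              have hgg : g' = g := by rw [hg', hg, heq]
              have := chi_of_mul k v k (g⁻¹ * v')
              rw [← hg, mul_inv_cancel_left, if_neg (by tauto)] at this
              rw [hgg]
              exact this.symm
          have hA : ∀ f ∈ F', ch (f⁻¹ * v') = ch v' := fun f hf =>
            hch_lower _ (inv_mem (hFl' f hf)) _
          have hB : ∀ f ∈ F', ch (f⁻¹ * (g'⁻¹ * v')) = ch v' := fun f hf =>
            (hch_lower _ (inv_mem (hFl' f hf)) _).trans hconst
          by_cases hside : ch v' = ch v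
          · rcases hs1 _ he with h | h
            · left
              intro f hf
              show col (f⁻¹ * v') ≠ X'
              rw [col1 _ ((hA f hf).trans hside)]
              exact h f hf
            · right
              intro f hf
              show col (f⁻¹ * (g'⁻¹ * v')) ≠ X'
              rw [col1 _ ((hB f hf).trans hside)]
              exact h f hf
          · rcases hs2 _ he with h | h
            · left
              intro f hf
              show col (f⁻¹ * v') ≠ X'
              rw [col2 _ (by rw [hA f hf]; exact hside)]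
              exact h f hf
            · right
              intro f hf
              show col (f⁻¹ * (g'⁻¹ * v')) ≠ X'
              rw [col2 _ (by rw [hB f hf]; exact hside)]
              exact h f hf
    rcases hsplit with hL | hL
    · obtain ⟨c1, h1, hs1⟩ := ihI E1' hL
      obtain ⟨c2, h2, hs2⟩ := ihI E2 hE2
      refine glue c1 c2 (fun i w hw => h1 i w (Finset.mem_union_left _ hw)) h2 hs1 hs2 (Or.inl ?_)
      intro w hw
      exact h1 X w (Finset.mem_union_right _ (by simpa using hw))
    · obtain ⟨c1, h1, hs1⟩ := ihI E1 hE1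
      obtain ⟨c2, h2, hs2⟩ := ihI E2' hL
      refine glue c1 c2 h1 (fun i w hw => h2 i w (Finset.mem_union_left _ hw)) hs1 hs2 (Or.inr ?_)
      intro w hw
      exact h2 X w (Finset.mem_union_right _ (by simpa using hw))

/-- **Main theorem.** If `√m ≤ c (1 - √2/2)` and `c ≥ 1`, the free group of countable rank has a
colouring with `c` colours such that for every colour `X` and every `F` with at most `m` elements
there is `g` outside `F A A⁻¹ F⁻¹`, `A` the set of elements of colour `X`. -/
theorem exists_bad_colouring {c m : ℕ} (hc : 0 < c)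
    (hm : Real.sqrt m ≤ c * (1 - Real.sqrt 2 / 2)) :
    ∃ col : G → Fin c, ∀ X : Fin c, ∀ F : Finset G, F.card ≤ m →
      ∃ g : G, ∀ x ∈ F, ∀ y ∈ F, ∀ a b : G, col a = X → col b = X →
        x * a * b⁻¹ * y⁻¹ ≠ g := by
  classical
  obtain ⟨κ, hκ, hκ'⟩ := exists_kappa c
  letI : TopologicalSpace (Fin c) := ⊥
  haveI : DiscreteTopology (Fin c) := ⟨rfl⟩
  let J := {e : (Fin c × Finset G) × G // e.1.2.card ≤ m}
  have hclosed : ∀ e : J, IsClosed {col : G → Fin c | Sat κ col e.1} := by
    intro e
    have h1 : ∀ (w : G) (X : Fin c), IsClosed {col : G → Fin c | col w ≠ X} := by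
      intro w X
      have hcl : IsClosed ({X}ᶜ : Set (Fin c)) := isClosed_discrete _
      exact hcl.preimage (continuous_apply (A := fun _ : G => Fin c) w)
    have h2 : {col : G → Fin c | Sat κ col e.1} =
        (⋂ f ∈ e.1.1.2, {col : G → Fin c | col (f⁻¹ * e.1.2) ≠ e.1.1.1}) ∪
        (⋂ f ∈ e.1.1.2, {col : G → Fin c |
          col (f⁻¹ * ((FreeGroup.of (κ e.1.1))⁻¹ * e.1.2)) ≠ e.1.1.1}) := by
      ext col
      simp [Sat]
    rw [h2]
    exact (isClosed_biInter fun f _ => h1 _ _).union (isClosed_biInter fun f _ => h1 _ _)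
  have hne : (Set.univ ∩ ⋂ e : J, {col : G → Fin c | Sat κ col e.1}).Nonempty := by
    apply IsCompact.inter_iInter_nonempty isCompact_univ _ hclosed
    intro u
    have hlight : Light (fun _ : Fin c => (∅ : Finset G)) := by
      unfold Light
      simpa using hc
    obtain ⟨col, _, hcol⟩ := finite_sat hm κ hκ hκ' (u.image Subtype.val) (by
      intro e he
      obtain ⟨e', _, rfl⟩ := Finset.mem_image.1 he
      exact e'.2) (fun _ => ∅) hlight
    refine ⟨col, Set.mem_univ _, ?_⟩
    simp only [Set.mem_iInter]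
    intro e he
    exact hcol _ (Finset.mem_image_of_mem _ he)
  obtain ⟨col, -, hcol⟩ := hne
  refine ⟨col, fun X F hF => ⟨FreeGroup.of (κ (X, F)), ?_⟩⟩
  intro x hx y hy a b ha hb hg
  have hs : Sat κ col ((X, F), x * a) := by
    have := Set.mem_iInter.1 hcol ⟨((X, F), x * a), hF⟩
    exact this
  rcases hs with h | h
  · apply h x hx
    simpa using ha
  · apply h y hy
    show col (y⁻¹ * ((FreeGroup.of (κ (X, F)))⁻¹ * (x * a))) = X
    rw [← hg]
    simpa [mul_assoc] using hb

end Pool.Agent.Helper34.BadPartition
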