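import Mathlib

/-!
# Mader's theorem on highly connected subgraphs

A finite graph of average degree at least `4 c` has a `(c + 1)`-connected induced subgraph whose ratio of edges to
vertices is larger than that of the graph minus `c` (Diestel, Theorem 1.4.3).

Everything is stated for vertex sets `T` of a fixed graph `G`; `prs G T` is the set of ordered adjacent pairs in `T`, so
its cardinality is twice the number of edges of `G[T]`.
-/

set_option autoImplicit false

namespace Pool.Agent.Helper34.Mader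

open Finset

variable {V : Type} [DecidableEq V] (G : SimpleGraph V) [DecidableRel G.Adj]

/-- The ordered adjacent pairs in `T`. -/
def prs (T : Finset V) : Finset (V × V) := (T ×ˢ T).filter fun p => G.Adj p.1 p.2

/-- The degree of `v` in `T`. -/
def dg (T : Finset V) (v : V) : ℕ := (T.filter fun w => G.Adj v w).card

/-- `G[T]` is `c`-connected. -/
def RConn (G : SimpleGraph V) (T : Finset V) (c : ℕ) : Prop :=
  c < T.card ∧ ∀ S : Finset V, S.card < c → (G.induce {v | v ∈ T ∧ v ∉ S}).Connected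

variable {G}

omit [DecidableEq V] in
theorem mem_prs {T : Finset V} {p : V × V} : p ∈ prs G T ↔ p.1 ∈ T ∧ p.2 ∈ T ∧ G.Adj p.1 p.2 := by
  rw [prs, mem_filter, mem_product, and_assoc]

variable (G)

omit [DecidableEq V] in
theorem card_prs (T : Finset V) : (prs G T).card = ∑ v ∈ T, dg G T v := by
  have h : prs G T = (T.sigma fun v => T.filter fun w => G.Adj v w).map
      (Equiv.sigmaEquivProd V V).toEmbedding := by
    ext ⟨v, w⟩
    simp [mem_prs]
  rw [h, card_map, card_sigma]
  rfl

/-- Deleting a vertex. -/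
theorem prs_erase (T : Finset V) (v : V) :
    (prs G T).card ≤ (prs G (T.erase v)).card + 2 * dg G T v := by
  have h1 : prs G T ⊆ prs G (T.erase v) ∪ ((T.filter fun w => G.Adj v w).image fun w => (v, w)) ∪
      ((T.filter fun w => G.Adj v w).image fun w => (w, v)) := by
    rintro ⟨a, b⟩ hp
    obtain ⟨ha, hb, hab⟩ := mem_prs.mp hp
    simp only at ha hb hab
    by_cases hav : a = v
    · subst hav
      refine mem_union_left _ (mem_union_right _ (mem_image.mpr ⟨b, mem_filter.mpr ⟨hb, hab⟩, rfl⟩))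
    · by_cases hbv : b = v
      · subst hbv
        exact mem_union_right _ (mem_image.mpr ⟨a, mem_filter.mpr ⟨ha, hab.symm⟩, rfl⟩)
      · exact mem_union_left _ (mem_union_left _ (mem_prs.mpr
          ⟨mem_erase.mpr ⟨hav, ha⟩, mem_erase.mpr ⟨hbv, hb⟩, hab⟩))
  have h2 := card_le_card h1
  have h3 := card_union_le (prs G (T.erase v) ∪ ((T.filter fun w => G.Adj v w).image fun w => (v, w)))
    ((T.filter fun w => G.Adj v w).image fun w => (w, v))
  have h4 := card_union_le (prs G (T.erase v)) ((T.filter fun w => G.Adj v w).image fun w => (v, w))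
  have h5 : ((T.filter fun w => G.Adj v w).image fun w => (v, w)).card ≤ dg G T v := card_image_le
  have h6 : ((T.filter fun w => G.Adj v w).image fun w => (w, v)).card ≤ dg G T v := card_image_le
  omega

theorem prs_le (T : Finset V) : (prs G T).card + T.card ≤ T.card * T.card := by
  have h1 : Disjoint (prs G T) (T.image fun v => (v, v)) := by
    rw [disjoint_left]
    rintro ⟨a, b⟩ h1 h2
    obtain ⟨v, -, hv⟩ := mem_image.mp h2
    obtain ⟨-, -, h3⟩ := mem_prs.mp h1
    simp only [Prod.mk.injEq] at hv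
    obtain ⟨rfl, rfl⟩ := hv
    exact G.loopless.irrefl _ h3
  have h2 : prs G T ∪ (T.image fun v => (v, v)) ⊆ T ×ˢ T := by
    refine union_subset (filter_subset _ _) ?_
    intro p hp
    obtain ⟨v, hv, rfl⟩ := mem_image.mp hp
    exact mem_product.mpr ⟨hv, hv⟩
  have h3 := card_le_card h2
  rw [card_union_of_disjoint h1, card_product,
    card_image_of_injective _ (fun a b h => congrArg Prod.fst h)] at h3
  exact h3

theorem dg_lt {T : Finset V} {v : V} (hv : v ∈ T) : dg G T v + 1 ≤ T.card := by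
  have h1 : (T.filter fun w => G.Adj v w) ⊆ T.erase v := by
    intro w hw
    obtain ⟨hw1, hw2⟩ := mem_filter.mp hw
    exact mem_erase.mpr ⟨hw2.ne', hw1⟩
  have h2 := card_le_card h1
  rw [card_erase_of_mem hv] at h2
  have h3 : 0 < T.card := card_pos.mpr ⟨v, hv⟩
  unfold dg
  omega

/-- A set `T` which is disconnected by `S` is covered by two smaller sets, which meet in `S` and contain all edges. -/
theorem exists_sep {T S : Finset V} (hS : S.card < T.card)
    (h : ¬ (G.induce {v | v ∈ T ∧ v ∉ S}).Connected) :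
    ∃ A B : Finset V, A ∪ B = T ∧ A ∩ B ⊆ S ∧ A ≠ T ∧ B ≠ T ∧
      (∃ a ∈ A, T.filter (fun w => G.Adj a w) ⊆ A) ∧ (∃ b ∈ B, T.filter (fun w => G.Adj b w) ⊆ B) ∧
      prs G T ⊆ prs G A ∪ prs G B := by
  classical
  set H := G.induce {v | v ∈ T ∧ v ∉ S} with hH
  have hne : Nonempty {v | v ∈ T ∧ v ∉ S} := by
    have h1 : (T \ S).Nonempty := by
      rw [← card_pos]
      have := le_card_sdiff S T
      omega
    obtain ⟨v, hv⟩ := h1
    exact ⟨⟨v, (mem_sdiff.mp hv).1, (mem_sdiff.mp hv).2⟩⟩
  have h1 : ∃ u w : {v | v ∈ T ∧ v ∉ S}, ¬ H.Reachable u w := by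
    by_contra hcon
    push Not at hcon
    exact h ⟨fun u w => hcon u w⟩
  obtain ⟨u, w, huw⟩ := h1
  set A₀ : Finset V := T.filter fun v => ∃ hv : v ∈ T ∧ v ∉ S, H.Reachable u ⟨v, hv⟩ with hA₀
  have key : ∀ a ∈ A₀, ∀ b ∈ T, b ∉ S → G.Adj a b → b ∈ A₀ := by
    intro a ha b hb hbS hab
    obtain ⟨haT, hav, har⟩ := mem_filter.mp ha
    refine mem_filter.mpr ⟨hb, ⟨hb, hbS⟩, har.trans (SimpleGraph.Adj.reachable ?_)⟩
    exact hab
  have hA₀S : ∀ a ∈ A₀, a ∉ S := by
    intro a ha
    obtain ⟨-, hav, -⟩ := mem_filter.mp ha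
    exact hav.2
  have huA : (u : V) ∈ A₀ := mem_filter.mpr ⟨u.2.1, u.2, SimpleGraph.Reachable.refl _⟩
  have hwA : (w : V) ∉ A₀ := by
    intro hw
    obtain ⟨_, _, hr⟩ := mem_filter.mp hw
    exact huw hr
  have hA₀T : A₀ ⊆ T := filter_subset _ _
  refine ⟨A₀ ∪ (S ∩ T), T \ A₀, ?_, ?_, ?_, ?_, ⟨u, mem_union_left _ huA, ?_⟩,
    ⟨w, mem_sdiff.mpr ⟨w.2.1, hwA⟩, ?_⟩, ?_⟩
  · ext v
    simp only [mem_union, mem_inter, mem_sdiff]
    constructor
    · rintro ((h | h) | h)
      · exact hA₀T h
      · exact h.2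
      · exact h.1
    · intro hv
      by_cases hvA : v ∈ A₀
      · exact Or.inl (Or.inl hvA)
      · exact Or.inr ⟨hv, hvA⟩
  · intro v hv
    obtain ⟨hv1, hv2⟩ := mem_inter.mp hv
    rcases mem_union.mp hv1 with h | h
    · exact absurd h (mem_sdiff.mp hv2).2
    · exact (mem_inter.mp h).1
  · intro hcon
    have : (w : V) ∈ A₀ ∪ (S ∩ T) := by
      rw [hcon]
      exact w.2.1
    rcases mem_union.mp this with h | h
    · exact hwA h
    · exact w.2.2 (mem_inter.mp h).1
  · intro hcon
    have : (u : V) ∈ T \ A₀ := by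
      rw [hcon]
      exact u.2.1
    exact (mem_sdiff.mp this).2 huA
  · intro v hv
    obtain ⟨hv1, hv2⟩ := mem_filter.mp hv
    by_cases hvS : v ∈ S
    · exact mem_union_right _ (mem_inter.mpr ⟨hvS, hv1⟩)
    · exact mem_union_left _ (key u huA v hv1 hvS hv2)
  · intro v hv
    obtain ⟨hv1, hv2⟩ := mem_filter.mp hv
    refine mem_sdiff.mpr ⟨hv1, fun hvA => hwA ?_⟩
    exact key v hvA w w.2.1 w.2.2 hv2.symm
  · rintro ⟨a, b⟩ hp
    obtain ⟨ha, hb, hab⟩ := mem_prs.mp hp
    simp only at ha hb hab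
    by_cases haA : a ∈ A₀
    · refine mem_union_left _ (mem_prs.mpr ⟨mem_union_left _ haA, ?_, hab⟩)
      by_cases hbS : b ∈ S
      · exact mem_union_right _ (mem_inter.mpr ⟨hbS, hb⟩)
      · exact mem_union_left _ (key a haA b hb hbS hab)
    · by_cases hbA : b ∈ A₀
      · refine mem_union_left _ (mem_prs.mpr ⟨?_, mem_union_left _ hbA, hab⟩)
        by_cases haS : a ∈ S
        · exact mem_union_right _ (mem_inter.mpr ⟨haS, ha⟩)
        · exact mem_union_left _ (key b hbA a ha haS hab.symm)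
      · exact mem_union_right _ (mem_prs.mpr
          ⟨mem_sdiff.mpr ⟨ha, haA⟩, mem_sdiff.mpr ⟨hb, hbA⟩, hab⟩)

/-- **Mader's theorem**, core form. -/
theorem mader_core (c : ℕ) (hc : 1 ≤ c) (γ : ℝ) (hγ : 2 * (c : ℝ) ≤ γ) (W : Finset V)
    (hW : 2 * c ≤ W.card) (hWe : 2 * γ * ((W.card : ℝ) - c) < (prs G W).card) :
    ∃ T ⊆ W, RConn G T (c + 1) ∧ (∀ v ∈ T, γ < dg G T v) ∧
      2 * γ * ((T.card : ℝ) - c) < (prs G T).card := by
  classical
  have hγ0 : 0 < γ := by
    have : (1 : ℝ) ≤ c := by exact_mod_cast hc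
    linarith
  obtain ⟨T, hT, hmin⟩ := exists_min_image
    (W.powerset.filter fun T => 2 * c ≤ T.card ∧ 2 * γ * ((T.card : ℝ) - c) < (prs G T).card)
    Finset.card ⟨W, mem_filter.mpr ⟨mem_powerset_self W, hW, hWe⟩⟩
  obtain ⟨hTW, hT1, hT2⟩ := mem_filter.mp hT
  rw [mem_powerset] at hTW
  have hmin' : ∀ A : Finset V, A ⊆ T → A ≠ T → 2 * c ≤ A.card →
      ((prs G A).card : ℝ) ≤ 2 * γ * ((A.card : ℝ) - c) := by
    intro A hAT hne hA
    by_contra hcon
    push Not at hcon
    have h1 := hmin A (mem_filter.mpr ⟨mem_powerset.mpr (hAT.trans hTW), hA, hcon⟩)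
    exact hne (eq_of_subset_of_card_le hAT h1)
  have hTc : 2 * c < T.card := by
    rcases hT1.lt_or_eq with h | h
    · exact h
    · exfalso
      have h1 : ((prs G T).card : ℝ) + T.card ≤ T.card * T.card := by
        exact_mod_cast prs_le G T
      have h2 : (T.card : ℝ) = 2 * c := by
        rw [← h]
        push_cast
        ring
      rw [h2] at h1 hT2
      have hc1 : (1 : ℝ) ≤ c := by exact_mod_cast hc
      nlinarith
  have hdeg : ∀ v ∈ T, γ < dg G T v := by
    intro v hv
    by_contra hcon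
    push Not at hcon
    have h1 : (T.erase v).card = T.card - 1 := card_erase_of_mem hv
    have h2 := hmin' (T.erase v) (erase_subset _ _) (by
      intro h
      rw [h] at h1
      omega) (by omega)
    have h3 : ((prs G T).card : ℝ) ≤ (prs G (T.erase v)).card + 2 * dg G T v := by
      exact_mod_cast prs_erase G T v
    have h4 : ((T.erase v).card : ℝ) = T.card - 1 := by
      rw [h1, Nat.cast_sub (by omega), Nat.cast_one]
    rw [h4] at h2
    linarith
  refine ⟨T, hTW, ⟨by omega, fun S hS => ?_⟩, hdeg, hT2⟩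
  by_contra hcon
  obtain ⟨A, B, hAB, hABS, hAT, hBT, ⟨a, ha, ha'⟩, ⟨b, hb, hb'⟩, hprs⟩ :=
    exists_sep G (T := T) (S := S) (by omega) hcon
  have hAsub : A ⊆ T := hAB ▸ subset_union_left
  have hBsub : B ⊆ T := hAB ▸ subset_union_right
  have hbig : ∀ (A : Finset V) (a : V), A ⊆ T → a ∈ A → T.filter (fun w => G.Adj a w) ⊆ A →
      2 * c ≤ A.card := by
    intro A a hAT ha ha'
    have h1 := hdeg a (hAT ha)
    have h2 : dg G T a ≤ A.card := card_le_card ha'
    have h3 : (2 * (c : ℝ)) < A.card := by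
      have : (dg G T a : ℝ) ≤ A.card := by exact_mod_cast h2
      linarith
    exact_mod_cast h3.le
  have h1 := hmin' A hAsub hAT (hbig A a hAsub ha ha')
  have h2 := hmin' B hBsub hBT (hbig B b hBsub hb hb')
  have h3 : ((prs G T).card : ℝ) ≤ (prs G A).card + (prs G B).card := by
    exact_mod_cast (card_le_card hprs).trans (card_union_le _ _)
  have h4 : (A.card : ℝ) + B.card ≤ T.card + c := by
    have h5 : (A ∪ B).card + (A ∩ B).card = A.card + B.card := card_union_add_card_inter A B
    rw [hAB] at h5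
    have h6 := card_le_card hABS
    exact_mod_cast (by omega : A.card + B.card ≤ T.card + c)
  nlinarith

theorem card_prs_univ [Fintype V] : (prs G (univ : Finset V)).card = 2 * G.edgeFinset.card := by
  rw [card_prs, ← G.sum_degrees_eq_twice_card_edges]
  refine sum_congr rfl fun v _ => ?_
  unfold dg
  rw [← G.card_neighborFinset_eq_degree]
  congr 1
  ext w
  simp

/-- **Mader's theorem** for a graph with at least `2 c n` edges. -/
theorem mader [Fintype V] [Nonempty V] (c : ℕ) (hc : 1 ≤ c)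
    (h : 2 * c * Fintype.card V ≤ G.edgeFinset.card) :
    ∃ T : Finset V, RConn G T (c + 1) ∧
      (∀ v ∈ T, (G.edgeFinset.card : ℝ) / Fintype.card V < dg G T v) ∧
      2 * ((G.edgeFinset.card : ℝ) / Fintype.card V - c) * T.card < (prs G T).card := by
  classical
  have hn : (0 : ℝ) < Fintype.card V := by exact_mod_cast Fintype.card_pos
  set γ : ℝ := (G.edgeFinset.card : ℝ) / Fintype.card V with hγ
  have hc1 : (1 : ℝ) ≤ c := by exact_mod_cast hc
  have h1 : 2 * (c : ℝ) ≤ γ := by
    rw [hγ, le_div_iff₀ hn]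
    exact_mod_cast h
  have h2 : 2 * c ≤ (univ : Finset V).card := by
    have h3 := prs_le G (univ : Finset V)
    rw [card_prs_univ, card_univ] at h3
    rw [card_univ]
    have h4 : 0 < Fintype.card V := Fintype.card_pos
    by_contra hcon
    push Not at hcon
    nlinarith
  obtain ⟨T, -, hT1, hT2, hT3⟩ := mader_core G c hc γ h1 univ h2 (by
    rw [card_prs_univ, card_univ]
    push_cast
    have h5 : γ * Fintype.card V = G.edgeFinset.card := by
      rw [hγ, div_mul_cancel₀ _ hn.ne']
    nlinarith)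
  refine ⟨T, hT1, hT2, lt_of_lt_of_le ?_ (le_of_lt hT3)⟩
  have h6 : (0 : ℕ) < T.card := by
    have := hT1.1
    omega
  obtain ⟨v, hv⟩ := card_pos.mp h6
  have h7 : γ < T.card := by
    have h8 := dg_lt G hv
    have h9 : (dg G T v : ℝ) + 1 ≤ T.card := by exact_mod_cast h8
    have := hT2 v hv
    linarith
  nlinarith

variable {G}

omit [DecidableEq V] [DecidableRel G.Adj] in
/-- The relative form of connectivity and the one for the induced graph. -/
theorem RConn.induce {T : Finset V} {c : ℕ} (h : RConn G T c) :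
    c < Fintype.card {v // v ∈ T} ∧ ∀ S : Finset {v // v ∈ T}, S.card < c →
      ((G.induce {v | v ∈ T}).induce {v | v ∉ S}).Connected := by
  classical
  refine ⟨by rw [Fintype.card_coe]; exact h.1, fun S hS => ?_⟩
  have h1 := h.2 (S.map ⟨Subtype.val, Subtype.val_injective⟩) (by rwa [card_map])
  have e : G.induce {v | v ∈ T ∧ v ∉ S.map ⟨Subtype.val, Subtype.val_injective⟩} ≃g
      (G.induce {v | v ∈ T}).induce {v | v ∉ S} :=
    { toFun := fun v => ⟨⟨v.1, v.2.1⟩, fun hv => v.2.2 (mem_map.mpr ⟨_, hv, rfl⟩)⟩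
      invFun := fun v => ⟨v.1.1, v.1.2, fun hv => by
        obtain ⟨w, hw, hwv⟩ := mem_map.mp hv
        have : w = v.1 := Subtype.ext hwv
        exact v.2 (this ▸ hw)⟩
      left_inv := fun v => rfl
      right_inv := fun v => rfl
      map_rel_iff' := Iff.rfl }
  exact (SimpleGraph.Iso.connected_iff e).mp h1

end Pool.Agent.Helper34.Mader
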