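import Pool.Agent.Helper34.Mader
import Pool.Agent.Helper76.TW.Main

/-!
# A dense graph contains a highly connected and linked piece

Glue between Mader's theorem (`Pool.Agent.Helper34.Mader.mader_core`) and the linkage theorem
(`Pool.Agent.Helper76.TW.linkage`).
-/

set_option autoImplicit false

namespace Pool.Agent.Helper34.Mader

open Finset Pool.Agent.Helper76.TW

variable {V : Type} [DecidableEq V] {G : SimpleGraph V}

omit [DecidableEq V] in
/-- In a `c`-connected piece all separations of order less than `c` are trivial. -/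
theorem RConn.sep {T : Finset V} {c : ℕ} (h : RConn G T c) {P Q : Set V}
    (hS : Sp G (T : Set V) P Q) (hc : (P ∩ Q).ncard < c) : P ⊆ Q ∨ Q ⊆ P := by
  classical
  by_contra hcon
  push Not at hcon
  obtain ⟨h1, h2⟩ := hcon
  obtain ⟨x, hxP, hxQ⟩ := Set.not_subset.1 h1
  obtain ⟨y, hyQ, hyP⟩ := Set.not_subset.1 h2
  have hPT : P ⊆ (T : Set V) := by rw [← hS.un]; exact Set.subset_union_left
  have hQT : Q ⊆ (T : Set V) := by rw [← hS.un]; exact Set.subset_union_right
  have hfin : (P ∩ Q).Finite := (T.finite_toSet).subset (fun z hz => hPT hz.1)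
  have hcard : hfin.toFinset.card < c := by
    rw [← Set.ncard_eq_toFinset_card _ hfin]; exact hc
  have hC := h.2 hfin.toFinset hcard
  have hx : x ∈ {v | v ∈ T ∧ v ∉ hfin.toFinset} :=
    ⟨Finset.mem_coe.1 (hPT hxP), by simp [hxQ]⟩
  have hy : y ∈ {v | v ∈ T ∧ v ∉ hfin.toFinset} :=
    ⟨Finset.mem_coe.1 (hQT hyQ), by simp [hyP]⟩
  obtain ⟨p⟩ := hC.preconnected ⟨x, hx⟩ ⟨y, hy⟩
  have key : ∀ (a b : {v | v ∈ T ∧ v ∉ hfin.toFinset})
      (_ : (G.induce {v | v ∈ T ∧ v ∉ hfin.toFinset}).Walk a b),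
      a.1 ∈ P → a.1 ∉ Q → b.1 ∉ P → False := by
    intro a b q
    induction q with
    | nil => intro h1 _ h3; exact h3 h1
    | @cons a' b' _ hadj q ih =>
      intro h1 h2 h3
      have hb1 : b'.1 ∈ T := b'.2.1
      have hb2 : b'.1 ∉ P ∩ Q := by
        have := b'.2.2
        simpa using this
      have hadj' : G.Adj a'.1 b'.1 := hadj
      by_cases hbP : b'.1 ∈ P
      · exact ih hbP (fun hq => hb2 ⟨hbP, hq⟩) h3
      · have hbQ : b'.1 ∈ Q := by
          have : b'.1 ∈ P ∪ Q := by rw [hS.un]; exact Finset.mem_coe.2 hb1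
          exact this.resolve_left hbP
        exact hS.no _ ⟨h1, h2⟩ _ ⟨hbQ, hbP⟩ hadj'
  exact key _ _ p hxP hxQ hyP

/-- A `2k`-connected piece with at least `32 k #T` edges is linked on every set of at most `2k`
vertices. -/
theorem RConn.linked [Finite V] [DecidableRel G.Adj] {T : Finset V} {c k : ℕ} (hk : 1 ≤ k)
    (h : RConn G T c) (hc : 2 * k ≤ c) (hE : 64 * k * T.card ≤ (prs G T).card) (X : Set V)
    (hX : X ⊆ (T : Set V)) (hXc : X.ncard ≤ 2 * k) : Lk G (T : Set V) X := by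
  classical
  refine linkage hk G (T : Set V) X hX hXc (fun P Q hS hlt => h.sep hS (by omega)) ?_
  have h1 : E2 G (T : Set V) (T : Set V) = ((prs G T : Finset (V × V)) : Set (V × V)) := by
    ext ⟨a, b⟩
    simp only [E2, Set.mem_ofPred_eq, Finset.mem_coe, mem_prs]
    constructor
    · rintro ⟨h1, h2, h3, _⟩; exact ⟨h1, h2, h3⟩
    · rintro ⟨h1, h2, h3⟩; exact ⟨h1, h2, h3, Or.inl h1⟩
  rw [h1, Set.ncard_coe_finset, Set.ncard_coe_finset]
  exact hE

/-- Mader's theorem with the linkage theorem: a set `W` which spans more than `γ (#W - c)` edges,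
`γ >= 64 k`, `γ >= 2c`, `c + 1 >= 2k`, contains a `(c+1)`-connected piece `T` with all degrees
larger than `γ`, which is linked on every set of at most `2k` of its vertices. -/
theorem mader_linked [Finite V] [DecidableRel G.Adj] {c k : ℕ} (hc : 1 ≤ c) (hk : 1 ≤ k)
    (hkc : 2 * k ≤ c + 1) {γ : ℝ} (hγ : 2 * (c : ℝ) ≤ γ) (hγk : 64 * (k : ℝ) ≤ γ) (W : Finset V)
    (hW : 2 * c ≤ W.card) (hWe : 2 * γ * ((W.card : ℝ) - c) < (prs G W).card) :
    ∃ T ⊆ W, RConn G T (c + 1) ∧ (∀ v ∈ T, γ < dg G T v) ∧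
      2 * γ * ((T.card : ℝ) - c) < (prs G T).card ∧
      ∀ X : Set V, X ⊆ (T : Set V) → X.ncard ≤ 2 * k → Lk G (T : Set V) X := by
  classical
  obtain ⟨T, hTW, hT, hd, he⟩ := mader_core (G := G) c hc γ hγ W hW hWe
  refine ⟨T, hTW, hT, hd, he, fun X hX hXc => hT.linked hk hkc ?_ X hX hXc⟩
  have h1 : γ * T.card ≤ (prs G T).card := by
    rw [card_prs]
    push_cast
    have : ∑ _v ∈ T, γ ≤ ∑ v ∈ T, (dg G T v : ℝ) := Finset.sum_le_sum fun v hv => (hd v hv).le
    rw [Finset.sum_const, nsmul_eq_mul] at this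
    linarith
  have h2 : (64 * k * T.card : ℝ) ≤ (prs G T).card := by
    have h3 : (0 : ℝ) ≤ T.card := Nat.cast_nonneg _
    nlinarith
  exact_mod_cast h2

end Pool.Agent.Helper34.Mader
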